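import Mathlib

set_option autoImplicit false

namespace Pool.Agent.H152Z.Bin

/-- The wreath product of a group `D` with an additive commutative group `A` acting regularly. -/
@[ext] structure Wr (D A : Type) where
  left : A → D
  right : A

namespace Wr

variable {D E A : Type} [Group D] [Group E] [AddCommGroup A]

instance : Mul (Wr D A) := ⟨fun a b => ⟨fun x => a.left x * b.left (x + a.right), a.right + b.right⟩⟩
instance : One (Wr D A) := ⟨⟨fun _ => 1, 0⟩⟩
instance : Inv (Wr D A) := ⟨fun a => ⟨fun x => (a.left (x - a.right))⁻¹, -a.right⟩⟩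

@[simp] lemma mul_left (a b : Wr D A) (x : A) :
    (a * b).left x = a.left x * b.left (x + a.right) := rfl
@[simp] lemma mul_right (a b : Wr D A) : (a * b).right = a.right + b.right := rfl
@[simp] lemma one_left (x : A) : (1 : Wr D A).left x = 1 := rfl
@[simp] lemma one_right : (1 : Wr D A).right = 0 := rfl
@[simp] lemma inv_left (a : Wr D A) (x : A) : a⁻¹.left x = (a.left (x - a.right))⁻¹ := rfl
@[simp] lemma inv_right (a : Wr D A) : a⁻¹.right = -a.right := rfl

instance : Group (Wr D A) where
  mul_assoc a b c := by
    ext x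
    · simp [mul_assoc, add_assoc]
    · simp [add_assoc]
  one_mul a := by ext x <;> simp
  mul_one a := by ext x <;> simp
  inv_mul_cancel a := by
    ext x
    · simp [sub_eq_add_neg]
    · simp

instance [Finite D] [Finite A] : Finite (Wr D A) :=
  Finite.of_injective (fun a : Wr D A => (a.left, a.right))
    (fun _ _ h => Wr.ext (congrArg Prod.fst h) (congrArg Prod.snd h))

/-- Functoriality in the base group. -/
def map (f : D →* E) : Wr D A →* Wr E A where
  toFun a := ⟨fun x => f (a.left x), a.right⟩
  map_one' := by ext x <;> simp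
  map_mul' a b := by ext x <;> simp

@[simp] lemma map_left (f : D →* E) (a : Wr D A) (x : A) : (map f a).left x = f (a.left x) := rfl
@[simp] lemma map_right (f : D →* E) (a : Wr D A) : (map f a).right = a.right := rfl

lemma pow_right (a : Wr D A) (k : ℕ) : (a ^ k).right = k • a.right := by
  induction k with
  | zero => simp
  | succ k ih => rw [pow_succ, mul_right, ih, succ_nsmul]

lemma pow_left (a : Wr D A) (h : a.right = 0) (k : ℕ) (x : A) :
    (a ^ k).left x = a.left x ^ k := by
  induction k with
  | zero => simp
  | succ k ih => rw [pow_succ, mul_left, ih, pow_right, h, pow_succ]; simp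

lemma pow_left_of_one (a : Wr D A) (h : ∀ x, a.left x = 1) (k : ℕ) (x : A) :
    (a ^ k).left x = 1 := by
  induction k generalizing x with
  | zero => simp
  | succ k ih => rw [pow_succ, mul_left, ih, h]; simp

end Wr

/-- The free group on countably many generators. -/
abbrev F : Type := FreeGroup ℕ

section

variable {A : Type} [AddCommGroup A]

/-- The translation part of a word. -/
def ab (e : ℕ → A) (w : F) : A :=
  Multiplicative.toAdd (FreeGroup.lift (fun j => Multiplicative.ofAdd (e j)) w)

@[simp] lemma ab_one (e : ℕ → A) : ab e 1 = 0 := by simp [ab]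
@[simp] lemma ab_of (e : ℕ → A) (j : ℕ) : ab e (FreeGroup.of j) = e j := by simp [ab]
@[simp] lemma ab_mul (e : ℕ → A) (u w : F) : ab e (u * w) = ab e u + ab e w := by simp [ab]
@[simp] lemma ab_inv (e : ℕ → A) (w : F) : ab e w⁻¹ = -ab e w := by simp [ab]

/-- The image of the `j`-th generator: a translation, conjugated by the labelling if `j = 0`. -/
def gen (e : ℕ → A) (lab : A → F) (j : ℕ) : Wr F A :=
  ⟨fun x => if j = 0 then lab x * (lab (x + e j))⁻¹ else 1, e j⟩

/-- The wreath recursion. -/
def psi (e : ℕ → A) (lab : A → F) : F →* Wr F A := FreeGroup.lift (gen e lab)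

@[simp] lemma psi_of (e : ℕ → A) (lab : A → F) (j : ℕ) :
    psi e lab (FreeGroup.of j) = gen e lab j := by simp [psi]

lemma psi_right (e : ℕ → A) (lab : A → F) (w : F) : (psi e lab w).right = ab e w := by
  induction w using FreeGroup.induction_on with
  | C1 => simp
  | of j => simp [gen]
  | inv_of j ih => rw [map_inv, Wr.inv_right, ih, ab_inv]
  | mul u w h1 h2 => rw [map_mul, Wr.mul_right, h1, h2, ab_mul]

lemma gen_pow (e : ℕ → A) (lab : A → F) (j k : ℕ) (hk : k • e j = 0) : gen e lab j ^ k = 1 := by
  have h1 : gen e lab j = (⟨fun x => if j = 0 then lab x else 1, 0⟩ : Wr F A) *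
      ⟨fun _ => 1, e j⟩ * (⟨fun x => if j = 0 then lab x else 1, 0⟩ : Wr F A)⁻¹ := by
    ext x
    · by_cases h : j = 0 <;> simp [gen, h]
    · simp [gen]
  have h2 : (⟨fun _ => 1, e j⟩ : Wr F A) ^ k = 1 := by
    ext x
    · rw [Wr.pow_left_of_one _ (fun _ => rfl)]; rfl
    · rw [Wr.pow_right]; simpa using hk
  rw [h1, conj_pow, h2]; simp

end

/-- The sections of a word only see the labels at finitely many translates, given by a finite set
of words which does not depend on the level. -/
lemma exists_pref (w : F) : ∃ P : Finset F, ∀ (A : Type) [AddCommGroup A] (e : ℕ → A)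
    (lab : A → F) (H : Subgroup F) (x : A), (∀ q ∈ P, lab (x + ab e q) ∈ H) →
      (psi e lab w).left x ∈ H := by
  classical
  induction w using FreeGroup.induction_on with
  | C1 => exact ⟨∅, fun A _ e lab H x _ => by simpa using H.one_mem⟩
  | of j =>
    refine ⟨{1, FreeGroup.of j}, fun A _ e lab H x h => ?_⟩
    have h1 := h 1 (by simp)
    have h2 := h (FreeGroup.of j) (by simp)
    simp only [ab_one, add_zero, ab_of] at h1 h2
    simp only [psi_of, gen]
    split_ifs
    · exact H.mul_mem h1 (H.inv_mem h2)
    · exact H.one_mem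
  | inv_of j ih =>
    obtain ⟨P, hP⟩ := ih
    refine ⟨P.image (fun q => (FreeGroup.of j)⁻¹ * q), fun A _ e lab H x h => ?_⟩
    rw [map_inv, Wr.inv_left]
    refine H.inv_mem (hP A e lab H _ fun q hq => ?_)
    have := h _ (Finset.mem_image_of_mem _ hq)
    rw [psi_right]
    simpa [sub_eq_add_neg, add_assoc] using this
  | mul u w h1 h2 =>
    obtain ⟨P, hP⟩ := h1
    obtain ⟨Q, hQ⟩ := h2
    refine ⟨P ∪ Q.image (fun q => u * q), fun A _ e lab H x h => ?_⟩
    rw [map_mul, Wr.mul_left]
    refine H.mul_mem (hP A e lab H _ fun q hq => h q (Finset.mem_union_left _ hq))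
      (hQ A e lab H _ fun q hq => ?_)
    have := h _ (Finset.mem_union_right _ (Finset.mem_image_of_mem _ hq))
    rw [psi_right]
    simpa [add_assoc] using this

/-- A choice of the finite set of `exists_pref`. -/
noncomputable def pref (w : F) : Finset F := (exists_pref w).choose

lemma pref_spec (w : F) {A : Type} [AddCommGroup A] (e : ℕ → A)
    (lab : A → F) (H : Subgroup F) (x : A) (h : ∀ q ∈ pref w, lab (x + ab e q) ∈ H) :
    (psi e lab w).left x ∈ H := (exists_pref w).choose_spec A e lab H x h

end Pool.Agent.H152Z.Bin
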