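import Mathlib
import Pool.Agent.H152Z.Bin.Wreath

set_option autoImplicit false

namespace Pool.Agent.H152Z.Bin

open Classical in
lemma greedy {B : Type} [AddCommGroup B] [Fintype B] (Bad : Finset B) (k : ℕ)
    (h : 1 + k * (1 + 2 * Bad.card) < Fintype.card B) :
    ∃ T : Finset B, T.card = k ∧ 0 ∉ T ∧ ∀ x ∈ T, ∀ y ∈ T, x - y ∈ Bad → x = y := by
  induction k with
  | zero => exact ⟨∅, by simp⟩
  | succ k ih =>
    obtain ⟨T, hT, h0, hd⟩ := ih (by nlinarith)
    set Z : Finset B := insert 0 (T ∪ (Finset.image₂ (fun y b => y + b) T Bad ∪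
      Finset.image₂ (fun y b => y - b) T Bad)) with hZ
    have hc : Z.card < Fintype.card B := by
      have h1 := Finset.card_insert_le (0 : B) (T ∪ (Finset.image₂ (fun y b => y + b) T Bad ∪
        Finset.image₂ (fun y b => y - b) T Bad))
      have h2 := Finset.card_union_le T (Finset.image₂ (fun y b => y + b) T Bad ∪
        Finset.image₂ (fun y b => y - b) T Bad)
      have h3 := Finset.card_union_le (Finset.image₂ (fun y b => y + b) T Bad)
        (Finset.image₂ (fun y b => y - b) T Bad)
      have h4 := Finset.card_image₂_le (fun y b : B => y + b) T Bad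
      have h5 := Finset.card_image₂_le (fun y b : B => y - b) T Bad
      rw [hT] at h2 h4 h5
      rw [← hZ] at h1
      nlinarith
    obtain ⟨z, hz⟩ : ∃ z, z ∉ Z := by
      by_contra hcon
      push Not at hcon
      have : Z = Finset.univ := Finset.eq_univ_iff_forall.2 hcon
      rw [this, Finset.card_univ] at hc
      exact lt_irrefl _ hc
    simp only [hZ, Finset.mem_insert, Finset.mem_union, Finset.mem_image₂, not_or, not_exists,
      not_and] at hz
    obtain ⟨hz0, hzT, hz1, hz2⟩ := hz
    refine ⟨insert z T, by rw [Finset.card_insert_of_notMem hzT, hT], ?_, ?_⟩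
    · simp only [Finset.mem_insert, not_or]
      exact ⟨fun h => hz0 h.symm, h0⟩
    · intro x hx y hy hxy
      rcases Finset.mem_insert.1 hx with rfl | hx' <;> rcases Finset.mem_insert.1 hy with rfl | hy'
      · rfl
      · exact absurd (by abel) (hz1 y hy' _ hxy)
      · exact absurd (by abel) (hz2 x hx' _ hxy)
      · exact hd x hx' y hy' hxy

/-- The translation group of a level. -/
abbrev TA (m p : ℕ) : Type := ZMod p × (Fin m → ZMod p)

/-- The translations given by the generators. -/
def ev (m p : ℕ) : ℕ → TA m p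
  | 0 => (1, 0)
  | j + 1 => (0, if h : j < m then Pi.single ⟨j, h⟩ 1 else 0)

/-- The data of one level of the tree. -/
structure Lev where
  m : ℕ
  p : ℕ
  hp : p.Prime
  lb : (Fin m → ZMod p) → F

instance (L : Lev) : Fact L.p.Prime := ⟨L.hp⟩

/-- The span of the translation parts of a set of words. -/
def orb (m p : ℕ) (S : Finset F) : Submodule (ZMod p) (TA m p) :=
  Submodule.span (ZMod p) (ab (ev m p) '' S)

open Classical in
/-- The span as a finite set. -/
noncomputable def orbF (m p : ℕ) [Fact p.Prime] (S : Finset F) : Finset (TA m p) :=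
  Finset.univ.filter (· ∈ orb m p S)

lemma mem_orbF {m p : ℕ} [Fact p.Prime] {S : Finset F} {x : TA m p} :
    x ∈ orbF m p S ↔ x ∈ orb m p S := by simp [orbF]

lemma card_orbF (m p : ℕ) [hp : Fact p.Prime] (S : Finset F) {R : ℕ} (hR : S.card ≤ R) :
    (orbF m p S).card ≤ p ^ R := by
  classical
  have h1 : (orbF m p S).card = Nat.card (orb m p S) := by
    rw [← Nat.card_eq_finsetCard]
    exact Nat.card_congr (Equiv.subtypeEquivRight fun x => mem_orbF)
  rw [h1, Module.natCard_eq_pow_finrank (K := ZMod p), Nat.card_zmod]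
  refine Nat.pow_le_pow_right hp.out.pos ?_
  have h2 := finrank_span_finset_le_card (R := ZMod p) (S.image (ab (ev m p)))
  rw [Finset.coe_image] at h2
  exact h2.trans (Finset.card_image_le.trans hR)

namespace Lev

/-- The labelling of the vertices of the level. -/
def lab (L : Lev) (x : TA L.m L.p) : F := if x.1 = 1 then L.lb x.2 else 1

/-- The wreath recursion of the level. -/
def ψ (L : Lev) : F →* Wr F (TA L.m L.p) := psi (ev L.m L.p) L.lab

open Classical in
/-- The sections of the words in `S` on the orbit of `v`. -/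
noncomputable def next (L : Lev) (S : Finset F) (v : TA L.m L.p) : Finset F :=
  Finset.image₂ (fun w u => (L.ψ w).left (v + u)) S (orbF L.m L.p S)

lemma card_next (L : Lev) (S : Finset F) (v : TA L.m L.p) {R : ℕ} (hR : S.card ≤ R) :
    (L.next S v).card ≤ R * L.p ^ R := by
  classical
  unfold next
  convert (Finset.card_image₂_le _ _ _).trans (Nat.mul_le_mul hR (card_orbF L.m L.p S hR))

lemma mem_next (L : Lev) {S : Finset F} (v : TA L.m L.p) {w : F} (hw : w ∈ S) {u : TA L.m L.p}
    (hu : u ∈ orb L.m L.p S) : (L.ψ w).left (v + u) ∈ L.next S v := by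
  classical
  unfold next
  simp only [Finset.mem_image₂]
  exact ⟨w, hw, u, mem_orbF.2 hu, rfl⟩

/-- On each orbit all sections are powers of one generator. -/
def Kill (L : Lev) (S : Finset F) : Prop :=
  ∀ v, ∃ i : ℕ, ∀ w ∈ L.next S v, w ∈ Subgroup.zpowers (FreeGroup.of i : F)

end Lev

theorem step (R N : ℕ) (K : Finset (Finset F)) (hK : ∀ S ∈ K, S.card ≤ R) :
    ∃ L : Lev, L.m = 2 * R + 1 ∧ N < L.p ∧ L.lb 0 = 1 ∧
      (∀ i ≤ 2 * (R * L.p ^ R) + 1, ∃ b, L.lb b = FreeGroup.of i) ∧ ∀ S ∈ K, L.Kill S := by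
  classical
  set P : Finset F → Finset F := fun S => S.biUnion pref with hP
  set M : ℕ := ∑ S ∈ K, (P S).card * (P S).card with hM
  obtain ⟨p, hpN, hp⟩ := Nat.exists_infinite_primes (N + 1 + ((2 * R + 2) * (2 * M + 1) + 2))
  have : Fact p.Prime := ⟨hp⟩
  set m := 2 * R + 1 with hm
  set Bad : Finset (Fin m → ZMod p) := K.biUnion fun S =>
    Finset.image₂ (fun (u : TA m p) (q : F × F) =>
      (u + ab (ev m p) q.1 - ab (ev m p) q.2).2) (orbF m p S) (P S ×ˢ P S) with hBad
  have hB : Bad.card ≤ p ^ R * M := by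
    rw [hM, Finset.mul_sum]
    refine Finset.card_biUnion_le.trans (Finset.sum_le_sum fun S hS => ?_)
    refine (Finset.card_image₂_le _ _ _).trans ?_
    rw [Finset.card_product]
    exact Nat.mul_le_mul_right _ (card_orbF m p S (hK S hS))
  have hq : 1 ≤ p ^ R := Nat.one_le_pow _ _ hp.pos
  obtain ⟨T, hT, h0, hd⟩ := greedy Bad (2 * (R * p ^ R) + 2) (by
    have h1 : Fintype.card (Fin m → ZMod p) = p * (p ^ R * p ^ R) := by
      rw [Fintype.card_fun, ZMod.card, Fintype.card_fin, hm]; ring
    rw [h1]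
    have h2 : 2 * (R * p ^ R) + 2 ≤ (2 * R + 2) * p ^ R := by nlinarith
    have h3 : 1 + 2 * Bad.card ≤ (2 * M + 1) * p ^ R := by nlinarith
    have h4 := Nat.mul_le_mul h2 h3
    have h5 : 1 ≤ p ^ R * p ^ R := by nlinarith
    have h6 : ((2 * R + 2) * (2 * M + 1) + 2) * (p ^ R * p ^ R) ≤ p * (p ^ R * p ^ R) :=
      Nat.mul_le_mul_right _ (by omega)
    nlinarith)
  let g : T ≃ Fin (2 * (R * p ^ R) + 2) := T.equivFinOfCardEq hT
  let lb : (Fin m → ZMod p) → F := fun b => if h : b ∈ T then FreeGroup.of (g ⟨b, h⟩ : ℕ) else 1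
  let L : Lev := ⟨m, p, hp, lb⟩
  refine ⟨L, rfl, by show N < p; omega, by simp [L, lb, h0], ?_, ?_⟩
  · intro i hi
    have hi' : i < 2 * (R * p ^ R) + 2 := Nat.lt_succ_of_le hi
    refine ⟨(g.symm ⟨i, hi'⟩ : T), ?_⟩
    simp [L, lb]
  · intro S hS v
    change TA m p at v
    have key : ∃ i : ℕ, ∀ u ∈ orb m p S, ∀ q ∈ P S,
        L.lab (v + u + ab (ev m p) q) ∈ Subgroup.zpowers (FreeGroup.of i : F) := by
      by_cases hex : ∃ u ∈ orb m p S, ∃ q ∈ P S, (v + u + ab (ev m p) q).2 ∈ T
      · obtain ⟨u₀, hu₀, q₀, hq₀, hT₀⟩ := hex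
        refine ⟨g ⟨_, hT₀⟩, fun u hu q hq => ?_⟩
        unfold Lev.lab
        split_ifs
        · by_cases hT₁ : (v + u + ab (ev m p) q).2 ∈ T
          · have : (v + u + ab (ev m p) q).2 = (v + u₀ + ab (ev m p) q₀).2 := by
              refine hd _ hT₁ _ hT₀ ?_
              rw [hBad]
              refine Finset.mem_biUnion.2 ⟨S, hS, Finset.mem_image₂.2 ⟨u - u₀,
                mem_orbF.2 ((orb m p S).sub_mem hu hu₀), (q, q₀),
                Finset.mem_product.2 ⟨hq, hq₀⟩, ?_⟩⟩
              rw [← Prod.snd_sub]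
              congr 1
              abel
            show lb _ ∈ _
            simp only [lb, this, hT₀, dif_pos]
            exact Subgroup.mem_zpowers _
          · show lb _ ∈ _
            simp only [lb, hT₁, dif_neg, not_false_iff]
            exact Subgroup.one_mem _
        · exact Subgroup.one_mem _
      · refine ⟨0, fun u hu q hq => ?_⟩
        have hT₁ : (v + u + ab (ev m p) q).2 ∉ T := fun h => hex ⟨u, hu, q, hq, h⟩
        unfold Lev.lab
        split_ifs
        · show lb _ ∈ _
          simp only [lb, hT₁, dif_neg, not_false_iff]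
          exact Subgroup.one_mem _
        · exact Subgroup.one_mem _
    obtain ⟨i, hi⟩ := key
    refine ⟨i, fun w hw => ?_⟩
    unfold Lev.next at hw
    simp only [Finset.mem_image₂] at hw
    obtain ⟨w, hw, u, hu, rfl⟩ := hw
    refine pref_spec w _ _ _ _ fun q hq => hi u (mem_orbF.1 hu) q ?_
    exact Finset.mem_biUnion.2 ⟨w, hw, hq⟩

end Pool.Agent.H152Z.Bin
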