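import Mathlib
import Pool.Agent.H152Z.Bin.Step

set_option autoImplicit false

namespace Pool.Agent.H152Z.Bin

/-- The state of the recursive construction. -/
structure St where
  R : ℕ
  fam : ℕ → Finset (Finset F)
  inv : ∀ i, ∀ S ∈ fam i, S.card ≤ R

open Classical in
lemma St.ex (s : St) (n : ℕ) : ∃ L : Lev, L.m = 2 * s.R + 1 ∧ n < L.p ∧ L.lb 0 = 1 ∧
    (∀ i ≤ 2 * (s.R * L.p ^ s.R) + 1, ∃ b, L.lb b = FreeGroup.of i) ∧
    ∀ S ∈ s.fam n, L.Kill S :=
  step s.R n (s.fam n) (s.inv n)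

/-- The level chosen from a state. -/
noncomputable def St.lev (s : St) (n : ℕ) : Lev := (s.ex n).choose

open Classical in
/-- The next state. -/
noncomputable def St.succ (s : St) (n : ℕ) : St where
  R := s.R * (s.lev n).p ^ s.R
  fam i := (s.fam i).biUnion fun S => Finset.univ.image ((s.lev n).next S)
  inv i S hS := by
    simp only [Finset.mem_biUnion, Finset.mem_image] at hS
    obtain ⟨S', hS', v, -, rfl⟩ := hS
    exact (s.lev n).card_next S' v (s.inv i S' hS')

open Classical in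
/-- The sequence of states. -/
noncomputable def st (e : ℕ → F × F) : ℕ → St
  | 0 => ⟨2, fun i => {{(e i).1, (e i).2}}, fun i S hS => by
      rw [Finset.mem_singleton.1 hS]; exact Finset.card_le_two⟩
  | n + 1 => (st e n).succ n

open Classical in
theorem exists_tower (e : ℕ → F × F) : ∃ (L : ℕ → Lev) (fam : ℕ → ℕ → Finset (Finset F)),
    (∀ n, n < (L n).p) ∧ (∀ n, (L n).lb 0 = 1) ∧
    (∀ n, ∀ i ≤ (L (n + 1)).m, ∃ b, (L n).lb b = FreeGroup.of i) ∧
    (∀ i, {(e i).1, (e i).2} ∈ fam 0 i) ∧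
    (∀ n i, ∀ S ∈ fam n i, ∀ v, (L n).next S v ∈ fam (n + 1) i) ∧
    ∀ n, ∀ S ∈ fam n n, (L n).Kill S := by
  refine ⟨fun n => (st e n).lev n, fun n => (st e n).fam, fun n => ((st e n).ex n).choose_spec.2.1,
    fun n => ((st e n).ex n).choose_spec.2.2.1, fun n i hi => ?_, fun i => ?_, fun n i S hS v => ?_,
    fun n => ((st e n).ex n).choose_spec.2.2.2.2⟩
  · refine ((st e n).ex n).choose_spec.2.2.2.1 i ?_
    have h : ((st e (n + 1)).lev (n + 1)).m = 2 * (st e (n + 1)).R + 1 :=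
      ((st e (n + 1)).ex (n + 1)).choose_spec.1
    exact hi.trans (le_of_eq h)
  · exact Finset.mem_singleton_self _
  · show _ ∈ ((st e n).succ n).fam i
    simp only [St.succ, Finset.mem_biUnion, Finset.mem_image]
    exact ⟨S, hS, v, Finset.mem_univ _, rfl⟩

section

variable {A : Type} [AddCommGroup A]

/-- The elements of the base group with all coordinates in `N`. -/
def base (A : Type) [AddCommGroup A] (N : Subgroup F) : Subgroup (Wr F A) where
  carrier := {a | a.right = 0 ∧ ∀ x, a.left x ∈ N}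
  one_mem' := ⟨rfl, fun _ => N.one_mem⟩
  mul_mem' := by
    rintro a b ⟨h1, h2⟩ ⟨h3, h4⟩
    exact ⟨by simp [h1, h3], fun x => N.mul_mem (h2 _) (h4 _)⟩
  inv_mem' := by
    rintro a ⟨h1, h2⟩
    exact ⟨by simp [h1], fun x => N.inv_mem (h2 _)⟩

lemma base_eq_ker (N : Subgroup F) [N.Normal] :
    base A N = (Wr.map (QuotientGroup.mk' N) : Wr F A →* _).ker := by
  ext a
  rw [MonoidHom.mem_ker, Wr.ext_iff]
  constructor
  · rintro ⟨h1, h2⟩
    exact ⟨funext fun x => (QuotientGroup.eq_one_iff _).2 (h2 x), h1⟩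
  · rintro ⟨h1, h2⟩
    exact ⟨h2, fun x => (QuotientGroup.eq_one_iff _).1 (congrFun h1 x)⟩

end

variable (L : ℕ → Lev)

/-- The words acting trivially on `k` levels of the tree, starting from level `n`. -/
def NN : ℕ → ℕ → Subgroup F
  | 0, _ => ⊤
  | k + 1, n => (base _ (NN k (n + 1))).comap (L n).ψ

lemma mem_NN_succ {k n : ℕ} {w : F} : w ∈ NN L (k + 1) n ↔
    ((L n).ψ w).right = 0 ∧ ∀ x, ((L n).ψ w).left x ∈ NN L k (n + 1) := Iff.rfl

lemma NN_spec (k n : ℕ) : (NN L k n).Normal ∧ (NN L k n).FiniteIndex := by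
  induction k generalizing n with
  | zero => exact ⟨inferInstanceAs (⊤ : Subgroup F).Normal,
      inferInstanceAs (⊤ : Subgroup F).FiniteIndex⟩
  | succ k ih =>
    obtain ⟨h1, h2⟩ := ih (n + 1)
    have h : NN L (k + 1) n =
        ((Wr.map (QuotientGroup.mk' (NN L k (n + 1)))).comp (L n).ψ).ker := by
      rw [← MonoidHom.comap_ker, ← base_eq_ker]; rfl
    rw [h]
    exact ⟨inferInstance, inferInstance⟩

instance (k n : ℕ) : (NN L k n).Normal := (NN_spec L k n).1
instance (k n : ℕ) : (NN L k n).FiniteIndex := (NN_spec L k n).2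

/-- The words acting trivially on the tree below level `n`. -/
def Ninf (n : ℕ) : Subgroup F := ⨅ k, NN L k n

instance (n : ℕ) : (Ninf L n).Normal := Subgroup.normal_iInf_normal fun _ => inferInstance

lemma mem_Ninf {n : ℕ} {w : F} : w ∈ Ninf L n ↔
    ((L n).ψ w).right = 0 ∧ ∀ x, ((L n).ψ w).left x ∈ Ninf L (n + 1) := by
  simp only [Ninf, Subgroup.mem_iInf]
  constructor
  · intro h
    exact ⟨(h 1).1, fun x k => (h (k + 1)).2 x⟩
  · rintro ⟨h1, h2⟩ k
    cases k with
    | zero => trivial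
    | succ k => exact ⟨h1, fun x => h2 x k⟩

/-- The group acting on the tree below level `n`. -/
abbrev G (n : ℕ) : Type := F ⧸ Ninf L n

/-- The quotient map. -/
abbrev mkG (n : ℕ) : F →* G L n := QuotientGroup.mk' (Ninf L n)

lemma ker_eq (n : ℕ) : ((Wr.map (mkG L (n + 1))).comp (L n).ψ).ker = Ninf L n := by
  rw [← MonoidHom.comap_ker, ← base_eq_ker]
  ext w
  rw [mem_Ninf]; rfl

/-- The wreath recursion on the quotient groups. -/
def θ (n : ℕ) : G L n →* Wr (G L (n + 1)) (TA (L n).m (L n).p) :=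
  QuotientGroup.lift _ ((Wr.map (mkG L (n + 1))).comp (L n).ψ) (ker_eq L n).ge

lemma θ_mk (n : ℕ) (w : F) : θ L n (mkG L n w) = Wr.map (mkG L (n + 1)) ((L n).ψ w) := rfl

lemma θ_inj (n : ℕ) : Function.Injective (θ L n) := by
  rw [injective_iff_map_eq_one]
  intro g hg
  obtain ⟨w, rfl⟩ := QuotientGroup.mk'_surjective _ g
  refine (QuotientGroup.eq_one_iff _).2 ?_
  rw [← ker_eq]
  exact hg

lemma of_pow (n i : ℕ) : mkG L n (FreeGroup.of i) ^ (L n).p = 1 := by
  apply θ_inj
  rw [map_pow, θ_mk, ← map_pow, Lev.ψ, psi_of, gen_pow, map_one, map_one]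
  rw [← Nat.cast_smul_eq_nsmul (ZMod (L n).p)]
  simp

lemma of_big (n i : ℕ) (hi : (L n).m < i) : mkG L n (FreeGroup.of i) = 1 := by
  apply θ_inj
  obtain ⟨j, rfl⟩ : ∃ j, i = j + 1 := ⟨i - 1, by omega⟩
  have h : gen (ev (L n).m (L n).p) (L n).lab (j + 1) = 1 := by
    ext x
    · simp [gen]
    · simp [gen, ev]
    · have : ¬ j < (L n).m := by omega
      simp [gen, ev, this]
  rw [θ_mk, Lev.ψ, psi_of, h, map_one, map_one]

lemma gen_top (n : ℕ) (H : Subgroup (G L n))
    (h : ∀ i ≤ (L n).m, mkG L n (FreeGroup.of i) ∈ H) : H = ⊤ := by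
  rw [eq_top_iff]
  intro g _
  obtain ⟨w, rfl⟩ := QuotientGroup.mk'_surjective _ g
  induction w using FreeGroup.induction_on with
  | C1 => rw [map_one]; exact H.one_mem
  | of j =>
    by_cases hj : j ≤ (L n).m
    · exact h j hj
    · have := of_big L n j (not_le.1 hj)
      rw [this]; exact H.one_mem
  | inv_of j ih => rw [map_inv]; exact H.inv_mem (ih trivial)
  | mul u w h1 h2 => rw [map_mul]; exact H.mul_mem (h1 trivial) (h2 trivial)

end Pool.Agent.H152Z.Bin
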