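import Mathlib
import Pool.Agent.H152Z.Bin.Tower

set_option autoImplicit false

namespace Pool.Agent.H152Z.Bin

variable (L : ℕ → Lev)

/-- The words in `S` generate a finite subgroup of the group of level `n`. -/
def FinGen (n : ℕ) (S : Finset F) : Prop :=
  (mkG L n '' (Subgroup.closure (S : Set F) : Set F)).Finite

lemma closure_sec (M : Lev) (S : Finset F) {w : F} (hw : w ∈ Subgroup.closure (S : Set F)) :
    (M.ψ w).right ∈ orb M.m M.p S ∧ ∀ v, ∀ u ∈ orb M.m M.p S,
      (M.ψ w).left (v + u) ∈ Subgroup.closure (M.next S v : Set F) := by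
  induction hw using Subgroup.closure_induction with
  | mem w hw =>
    refine ⟨?_, fun v u hu => Subgroup.subset_closure (M.mem_next v hw hu)⟩
    rw [Lev.ψ, psi_right]
    exact Submodule.subset_span ⟨w, hw, rfl⟩
  | one => exact ⟨by simp, fun v u _ => by simp⟩
  | mul a b _ _ ha hb =>
    rw [map_mul]
    refine ⟨Submodule.add_mem _ ha.1 hb.1, fun v u hu => ?_⟩
    rw [Wr.mul_left, add_assoc]
    exact Subgroup.mul_mem _ (ha.2 v u hu) (hb.2 v _ (Submodule.add_mem _ hu ha.1))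
  | inv a _ ha =>
    rw [map_inv]
    refine ⟨Submodule.neg_mem _ ha.1, fun v u hu => ?_⟩
    rw [Wr.inv_left, add_sub_assoc]
    exact Subgroup.inv_mem _ (ha.2 v _ (Submodule.sub_mem _ hu ha.1))

lemma descent (n : ℕ) (S : Finset F) (h : ∀ v, FinGen L (n + 1) ((L n).next S v)) :
    FinGen L n S := by
  have h1 := ((Set.Finite.pi' h).prod (Set.toFinite (Set.univ : Set (TA (L n).m (L n).p)))).image
    (fun z => (⟨z.1, z.2⟩ : Wr (G L (n + 1)) (TA (L n).m (L n).p)))
  refine Set.Finite.of_finite_image (f := θ L n) (h1.subset ?_) (θ_inj L n).injOn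
  rintro _ ⟨_, ⟨w, hw, rfl⟩, rfl⟩
  refine ⟨((θ L n (mkG L n w)).left, (θ L n (mkG L n w)).right), ⟨fun v => ?_, trivial⟩, rfl⟩
  have := (closure_sec (L n) S hw).2 v 0 (Submodule.zero_mem _)
  rw [add_zero] at this
  exact ⟨_, this, rfl⟩

lemma finGen_of_kill (n : ℕ) (S : Finset F) (h : (L n).Kill S) : FinGen L n S := by
  refine descent L n S fun v => ?_
  obtain ⟨i, hi⟩ := h v
  have h1 : IsOfFinOrder (mkG L (n + 1) (FreeGroup.of i)) :=
    isOfFinOrder_iff_pow_eq_one.2 ⟨_, (L (n + 1)).hp.pos, of_pow L (n + 1) i⟩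
  refine h1.finite_zpowers.subset ?_
  rintro _ ⟨w, hw, rfl⟩
  have h2 : Subgroup.closure ((L n).next S v : Set F) ≤ Subgroup.zpowers (FreeGroup.of i) :=
    (Subgroup.closure_le _).2 fun x hx => hi x hx
  obtain ⟨k, rfl⟩ := h2 hw
  exact ⟨k, (map_zpow _ _ _).symm⟩

lemma finGen_all (fam : ℕ → ℕ → Finset (Finset F))
    (h1 : ∀ n i, ∀ S ∈ fam n i, ∀ v, (L n).next S v ∈ fam (n + 1) i)
    (h2 : ∀ n, ∀ S ∈ fam n n, (L n).Kill S) (i k : ℕ) :
    ∀ n, n + k = i → ∀ S ∈ fam n i, FinGen L n S := by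
  induction k with
  | zero =>
    rintro n rfl S hS
    exact finGen_of_kill L n S (h2 n S hS)
  | succ k ih =>
    intro n hn S hS
    exact descent L n S fun v => ih (n + 1) (by omega) _ (h1 n i S hS v)

lemma exists_trans (M : Lev) (b : Fin M.m → ZMod M.p) :
    ∃ t : F, (∀ x, (M.ψ t).left x = 1) ∧ (M.ψ t).right = (0, b) := by
  classical
  let U : AddSubmonoid (Fin M.m → ZMod M.p) :=
    { carrier := {b | ∃ t : F, (∀ x, (M.ψ t).left x = 1) ∧ (M.ψ t).right = (0, b)}
      zero_mem' := ⟨1, by simp, by simp; rfl⟩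
      add_mem' := by
        rintro a b ⟨s, hs, hs'⟩ ⟨t, ht, ht'⟩
        exact ⟨s * t, by simp [hs, ht], by simp [hs', ht']⟩ }
  have h : ∀ j : Fin M.m, Pi.single j 1 ∈ U := fun j =>
    ⟨FreeGroup.of (j + 1), by simp [Lev.ψ, gen], by simp [Lev.ψ, gen, ev]⟩
  have hb : b ∈ U := by
    rw [← Finset.univ_sum_single b]
    refine U.sum_mem fun j _ => ?_
    have : (Pi.single j (b j) : Fin M.m → ZMod M.p) = (b j).val • Pi.single j 1 := by
      rw [← Pi.single_smul', nsmul_eq_mul, mul_one, ZMod.natCast_zmod_val]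
    rw [this]
    exact U.nsmul_mem (h j) _
  exact hb

lemma sec_surj (n : ℕ) (h0 : (L n).lb 0 = 1)
    (h1 : ∀ i ≤ (L (n + 1)).m, ∃ b, (L n).lb b = FreeGroup.of i) :
    Function.Surjective fun g : G L n => (θ L n g).left 0 := by
  let H : Subgroup (G L (n + 1)) :=
    { carrier := {y | ∃ g : G L n, (θ L n g).right = 0 ∧ (θ L n g).left 0 = y}
      one_mem' := ⟨1, by simp, by simp⟩
      mul_mem' := by
        rintro _ _ ⟨a, ha, rfl⟩ ⟨b, hb, rfl⟩
        exact ⟨a * b, by simp [ha, hb], by simp [ha]⟩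
      inv_mem' := by
        rintro _ ⟨a, ha, rfl⟩
        exact ⟨a⁻¹, by simp [ha], by simp [ha]⟩ }
  have hH : H = ⊤ := by
    refine gen_top L (n + 1) H fun i hi => ?_
    obtain ⟨b, hb⟩ := h1 i hi
    obtain ⟨t, ht, ht'⟩ := exists_trans (L n) b
    refine (H.inv_mem_iff).1
      ⟨mkG L n (t * FreeGroup.of 0 * t⁻¹ * (FreeGroup.of 0)⁻¹), ?_, ?_⟩
    · rw [θ_mk]; simp
    · rw [θ_mk, Wr.map_left, ← map_inv]
      congr 1
      have e1 : (L n).ψ (FreeGroup.of 0) = gen (ev (L n).m (L n).p) (L n).lab 0 := psi_of _ _ _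
      simp only [map_mul, map_inv, Wr.mul_left, Wr.inv_left, Wr.mul_right, Wr.inv_right, ht, ht',
        e1, gen, ev]
      simp [Lev.lab, h0, hb]
  intro y
  have : y ∈ H := hH ▸ Subgroup.mem_top y
  obtain ⟨g, -, hg⟩ := this
  exact ⟨g, hg⟩

lemma p_le_card (n : ℕ) [Finite (G L n)] : (L n).p ≤ Nat.card (G L n) := by
  have h : Function.Surjective fun g : G L n => (θ L n g).right.1 := by
    intro c
    refine ⟨mkG L n (FreeGroup.of 0) ^ c.val, ?_⟩
    have e1 : (L n).ψ (FreeGroup.of 0) = gen (ev (L n).m (L n).p) (L n).lab 0 := psi_of _ _ _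
    simp only [map_pow, Wr.pow_right, θ_mk, Wr.map_right, e1, gen, ev]
    simp
  simpa using Nat.card_le_card_of_surjective _ h

lemma infinite_G (hp : ∀ n, n < (L n).p) (h0 : ∀ n, (L n).lb 0 = 1)
    (h1 : ∀ n, ∀ i ≤ (L (n + 1)).m, ∃ b, (L n).lb b = FreeGroup.of i) : Infinite (G L 0) := by
  by_contra hcon
  rw [not_infinite_iff_finite] at hcon
  have key : ∀ n, Finite (G L n) ∧ Nat.card (G L n) ≤ Nat.card (G L 0) := by
    intro n
    induction n with
    | zero => exact ⟨hcon, le_rfl⟩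
    | succ n ih =>
      obtain ⟨hf, hc⟩ := ih
      have hs := sec_surj L n (h0 n) (h1 n)
      exact ⟨Finite.of_surjective _ hs, (Nat.card_le_card_of_surjective _ hs).trans hc⟩
  obtain ⟨hf, hc⟩ := key (Nat.card (G L 0))
  have h2 := p_le_card L (Nat.card (G L 0))
  have h3 := hp (Nat.card (G L 0))
  omega

lemma torsion_aux (q a : ℕ) (hq : q.Prime) (k : ℕ) : ∀ (n : ℕ) (w : F),
    (∀ j, n ≤ j → q < (L j).p) → w ^ (q ^ a) ∈ Ninf L n → w ∈ NN L k n := by
  induction k with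
  | zero => intro n w _ _; trivial
  | succ k ih =>
    intro n w hj hw
    rw [mem_Ninf, map_pow, Wr.pow_right] at hw
    have hr : ((L n).ψ w).right = 0 := by
      have h1 := hw.1
      rw [← Nat.cast_smul_eq_nsmul (ZMod (L n).p), smul_eq_zero] at h1
      refine h1.resolve_left ?_
      rw [Nat.cast_pow]
      refine pow_ne_zero _ ?_
      rw [Ne, ZMod.natCast_eq_zero_iff]
      exact Nat.not_dvd_of_pos_of_lt hq.pos (hj n le_rfl)
    refine ⟨hr, fun x => ih (n + 1) _ (fun j h => hj j (by omega)) ?_⟩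
    rw [← Wr.pow_left _ hr]
    exact hw.2 x

lemma torsion_free (q a : ℕ) (hq : q.Prime) (k : ℕ) : ∀ (n : ℕ) (w : F),
    (∀ j, n + k ≤ j → q < (L j).p) → w ∈ NN L k n → w ^ (q ^ a) ∈ Ninf L n → w ∈ Ninf L n := by
  induction k with
  | zero =>
    intro n w hj _ hw
    exact Subgroup.mem_iInf.2 fun k => torsion_aux L q a hq k n w hj hw
  | succ k ih =>
    intro n w hj hN hw
    rw [mem_Ninf, map_pow] at hw
    rw [mem_Ninf]
    refine ⟨hN.1, fun x => ih (n + 1) _ (fun j h => hj j (by omega)) (hN.2 x) ?_⟩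
    rw [← Wr.pow_left _ hN.1]
    exact hw.2 x

/-- The level stabilisers in the group of the whole tree. -/
def Stab (k : ℕ) : Subgroup (G L 0) := (NN L k 0).map (mkG L 0)

instance (k : ℕ) : (Stab L k).Normal :=
  Subgroup.Normal.map inferInstance _ (QuotientGroup.mk'_surjective _)

lemma mem_Stab {k : ℕ} {w : F} : mkG L 0 w ∈ Stab L k ↔ w ∈ NN L k 0 := by
  have h : (Stab L k).comap (mkG L 0) = NN L k 0 :=
    Subgroup.comap_map_eq_self (by rw [QuotientGroup.ker_mk']; exact iInf_le _ k)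
  rw [← h]; rfl

instance (k : ℕ) : (Stab L k).FiniteIndex := by
  have h : (Stab L k).comap (mkG L 0) = NN L k 0 := by ext w; exact mem_Stab L
  refine ⟨?_⟩
  rw [← Subgroup.index_comap_of_surjective _ (QuotientGroup.mk'_surjective (Ninf L 0)), h]
  exact Subgroup.FiniteIndex.index_ne_zero

theorem main : ∃ (G : Type) (_ : Group G),
      Infinite G ∧ Group.FG G ∧
      (∀ g : G, g ≠ 1 → ∃ N : Subgroup G, N.Normal ∧ N.index ≠ 0 ∧ g ∉ N) ∧
      (∀ a b : G, ((Subgroup.closure ({a, b} : Set G) : Subgroup G) : Set G).Finite) ∧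
      (∀ p : ℕ, p.Prime → ∀ P : Sylow p G, ((P : Subgroup G) : Set G).Finite) := by
  classical
  obtain ⟨e, he⟩ := exists_surjective_nat (F × F)
  obtain ⟨L, fam, hp, h0, h1, h2, h3, h4⟩ := exists_tower e
  refine ⟨G L 0, inferInstance, infinite_G L hp h0 h1, ?_, ?_, ?_, ?_⟩
  · rw [Group.fg_iff]
    refine ⟨(fun i => mkG L 0 (FreeGroup.of i)) '' Set.Iic (L 0).m, ?_,
      (Set.finite_Iic _).image _⟩
    exact gen_top L 0 _ fun i hi => Subgroup.subset_closure ⟨i, hi, rfl⟩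
  · intro g hg
    obtain ⟨w, rfl⟩ := QuotientGroup.mk'_surjective _ g
    have hw : w ∉ Ninf L 0 := fun h => hg ((QuotientGroup.eq_one_iff _).2 h)
    rw [Ninf, Subgroup.mem_iInf, not_forall] at hw
    obtain ⟨k, hk⟩ := hw
    exact ⟨Stab L k, inferInstance, Subgroup.FiniteIndex.index_ne_zero,
      fun h => hk ((mem_Stab L).1 h)⟩
  · intro a b
    obtain ⟨u, rfl⟩ := QuotientGroup.mk'_surjective _ a
    obtain ⟨w, rfl⟩ := QuotientGroup.mk'_surjective _ b
    obtain ⟨i, hi⟩ := he (u, w)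
    have h5 := finGen_all L fam h3 h4 i i 0 (zero_add i) _ (h2 i)
    rw [hi] at h5
    unfold FinGen at h5
    rw [← Subgroup.coe_map, MonoidHom.map_closure] at h5
    simpa [Set.image_insert_eq] using h5
  · intro q hq P
    have hinj : Function.Injective
        ((QuotientGroup.mk' (Stab L q)).comp (P : Subgroup (G L 0)).subtype) := by
      rw [injective_iff_map_eq_one]
      rintro ⟨g, hg⟩ h
      obtain ⟨a, ha⟩ := P.isPGroup' ⟨g, hg⟩
      obtain ⟨w, rfl⟩ := QuotientGroup.mk'_surjective _ g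
      have h6 : w ∈ NN L q 0 := (mem_Stab L).1 ((QuotientGroup.eq_one_iff _).1 h)
      have h7 : w ^ (q ^ a) ∈ Ninf L 0 := by
        rw [← QuotientGroup.eq_one_iff]
        exact congrArg Subtype.val ha
      have h8 := torsion_free L q a hq q 0 w (fun j hj => lt_of_le_of_lt (by omega) (hp j)) h6 h7
      exact Subtype.ext ((QuotientGroup.eq_one_iff _).2 h8)
    have : Finite (P : Subgroup (G L 0)) := Finite.of_injective _ hinj
    exact Set.toFinite _

end Pool.Agent.H152Z.Bin
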